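import Pool.Agent.Y302.SG.Card
import Pool.Agent.Y302.SG.Luzin

/-!
# `Σ(2^κ)` is not D-separable if there are few meagre sets or a Luzin set

`SigmaCantor I` is `Σ(2^κ)`, `κ = |I|`, and `SelectivelyDSeparable` is D-separability (both from
`Pool.Agent.H94R3.Sigma`). `MeagreCof κ` says `cof(M) ≤ κ`, `CountableCof I κ` says that the
cofinality of the family of the countable subsets of `I` is at most `κ`, `IsLuzin L` says that `L`
is a Luzin set, and `HasBadDense X` says that `X` has a dense subspace that is not d-separable
(`Pool.Agent.Y302.SG.Defs`).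

The starting result has the hypothesis `κ^ω = κ`; the hypotheses `cof(M) ≤ κ` and
`cof([κ]^ω) = κ` are weaker (last clause), and below the continuum they can hold for `κ = ℵ₁`.

Idea. Countably many discrete sets are avoided by an open dense set for each of them, all given by
one countable set of coordinates. (1) Let the coordinates `i` code all pairs of a member of a
cofinal family of countable sets and a member of a cofinal family of meagre sets; the points `x`
that avoid the meagre set coded by `i` for each `i` with `x i = 1` form the bad dense set. (2) Let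
`y α`, `α < ω₁`, be points of a Luzin set and `e α : α → ω` coherent injections; the points `x`
which agree up to finitely many coordinates below `α` with `y α ∘ e α` and vanish from `α` on, for
some `α`, form the bad dense set: only countably many `α` occur in the discrete sets.
-/

set_option autoImplicit false

open Set Topology Cardinal

namespace Pool.Agent.Results.MP_339821_gt.FewMeagreSets

open Pool.Agent.H94R3.Sigma Pool.Agent.Y302.SG

universe u

theorem not_of_bad {I : Type u} (h : HasBadDense (SigmaCantor I)) :
    ¬ SelectivelyDSeparable (SigmaCantor I) := by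
  obtain ⟨D, hD, h⟩ := h
  intro hsel
  obtain ⟨F, hF, hF'⟩ := hsel (fun _ => D) (fun _ => hD)
  exact h F hF hF'

theorem result :
    -- (1) `cof([κ]^ω) = κ ≥ cof(M)`
    (∀ (I : Type u) [Infinite I], CountableCof I #I → MeagreCof.{u} #I →
      HasBadDense (SigmaCantor I) ∧ ¬ SelectivelyDSeparable (SigmaCantor I)) ∧
    -- (2) `κ = ℵ_n`, `n ≥ 1`, `cof(M) ≤ κ`
    (∀ (n : ℕ) (I : Type u), #I = ℵ_ ((n + 1 : ℕ) : Ordinal.{u}) → MeagreCof.{u} #I →
      HasBadDense (SigmaCantor I) ∧ ¬ SelectivelyDSeparable (SigmaCantor I)) ∧
    -- (3) `κ = ℵ₁` and there is a Luzin set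
    (∀ I : Type u, #I = ℵ₁ → (∃ L : Set (ℕ → Bool), IsLuzin L) →
      HasBadDense (SigmaCantor I) ∧ ¬ SelectivelyDSeparable (SigmaCantor I)) ∧
    -- the hypothesis of the starting result implies those of (1)
    (∀ (I : Type u) [Infinite I], #I ^ ℵ₀ = #I → CountableCof I #I ∧ MeagreCof.{u} #I) := by
  refine ⟨?_, ?_, ?_, ?_⟩
  · intro I _ h1 h2
    have h := exists_dense_of_cof h1 h2
    exact ⟨h, not_of_bad h⟩
  · intro n I hI h2
    have hinf : Infinite I := by
      rw [Cardinal.infinite_iff, hI]
      exact Cardinal.aleph0_le_aleph _
    have h1 : CountableCof I #I := by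
      have := countableCof_aleph (n + 1) I hI.le
      rwa [← hI] at this
    have h := exists_dense_of_cof h1 h2
    exact ⟨h, not_of_bad h⟩
  · rintro I hI ⟨L, hL⟩
    have h := exists_dense_of_luzin hI L hL
    exact ⟨h, not_of_bad h⟩
  · intro I _ hI
    exact ⟨countableCof_of_power I hI, meagreCof_of_power I hI⟩

end Pool.Agent.Results.MP_339821_gt.FewMeagreSets
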