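import Mathlib
import Pool.Agent.Y241.SG.Main

set_option autoImplicit false

namespace Pool.Agent.Results.MP_339821_gt.OmegaBoundedGroups

open Pool.Agent.H94R3.Sigma Cardinal

universe u

/-- For every cardinal `lam` there is (in ZFC) a Tychonoff Fréchet-Urysohn topological group `X` of
exponent two, in which the closure of every countable set is compact and every dense set has at
least `lam` elements, such that `X` is d-separable but has a dense subspace which is not
d-separable; in particular `X` is not D-separable. -/
theorem result (lam : Cardinal.{u}) :
    ∃ (X : Type u) (_ : AddCommGroup X) (_ : TopologicalSpace X),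
      IsTopologicalAddGroup X ∧ (∀ x : X, x + x = 0) ∧ T35Space X ∧ FrechetUrysohnSpace X ∧
      (∀ A : Set X, A.Countable → IsCompact (closure A)) ∧
      (∀ A : Set X, Dense A → lam ≤ #A) ∧
      WeaklyDSeparable X ∧ (∃ D : Set X, Dense D ∧ ¬ WeaklyDSeparable D) ∧
      ¬ SelectivelyDSeparable X :=
  Pool.Agent.Y241.SG.main lam

end Pool.Agent.Results.MP_339821_gt.OmegaBoundedGroups
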